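import Pool.Agent.CNP.MND

/-!
# The critical half-space self-avoiding walk oscillates (MP_aad444_pr)

The lattice is `ℤ^(d+1)` (`Fin (d + 1) → ℤ`), the coordinate `0` is the height; the case of interest is `d + 1 ≥ 2`.
A finite walk from the origin is the list of its steps (`Wlk d`), an infinite walk is the sequence of its steps
(`ℕ → Stp d`); `vtx ω n` is the vertex number `n` of the infinite walk `ω`.

`mu d` is the connective constant.  `HPc d`: the self-avoiding walks in the closed half space `{x_0 ≥ 0}`; `HP d n`: those with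
`n` steps.  `BoltzLimit μ`: `μ` is the weak limit of the critical Boltzmann measures (weight `z ^ length`, free end point) on
`HPc d` as `z` increases to `1 / mu d`.  `WeakLimit μ`: `μ` is the weak limit of the uniform measures on `HP d n`, `n → ∞`.

The theorem: the Boltzmann limit `μ` exists (every weak limit of the uniform measures equals `μ`), and `μ`-almost surely,
for every transverse coordinate `j`, every slope `κ < 1` and every `r` the walk has a vertex `x` of height `x_0 ≥ r` with
`x_j ≥ κ x_0` and a vertex `x` of height `x_0 ≥ r` with `x_j ≤ - κ x_0`.  So the critical walk from `0` to `∞` in the half space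
almost surely does not stay close to the geodesic (the vertical half-line): it oscillates out of every cone with a
half-angle less than `45` degrees.
-/

set_option autoImplicit false

open scoped ENNReal BigOperators Topology
open MeasureTheory Filter CNP

theorem Pool.Agent.Results.MP_aad444_pr.HalfSpaceOscillation.result (d : ℕ) :
    Tendsto (fun n : ℕ => (cs d n : ℝ) ^ (1 / (n : ℝ))) atTop (𝓝 (mu d)) ∧
    ∃ μ : Measure (ℕ → Stp d), IsProbabilityMeasure μ ∧ BoltzLimit μ ∧
      (∀ μ' : Measure (ℕ → Stp d), IsProbabilityMeasure μ' → WeakLimit μ' → μ' = μ) ∧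
      ∀ᵐ ω ∂μ, ∀ j : Fin (d + 1), j ≠ 0 → ∀ κ : ℝ, κ < 1 → ∀ r : ℝ,
        (∃ n : ℕ, r ≤ (vtx ω n 0 : ℝ) ∧ κ * (vtx ω n 0 : ℝ) ≤ (vtx ω n j : ℝ)) ∧
        (∃ n : ℕ, r ≤ (vtx ω n 0 : ℝ) ∧ κ * (vtx ω n 0 : ℝ) ≤ -(vtx ω n j : ℝ)) :=
  final_D d
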