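import Pool.Agent.CNP.MNB

/-!
# The mean width of a critical irreducible bridge is infinite (MP_aad444_pr)

The lattice is `ℤ^(d+1)` (`Fin (d + 1) → ℤ`), the coordinate `0` is the height, `d + 1 ≥ 2`.  `c` is the connective constant.
`Irr γ`: `γ` is an irreducible (strict) bridge.  `wid j γ`: the largest `|x_j|` of a vertex `x` of `γ`.
The critical weights `c ^ (-|γ|)` of the irreducible bridges sum to one (Kesten), and the theorem says that the mean of
`wid j γ` under this probability measure is infinite, for every transverse coordinate `j`.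
-/

set_option autoImplicit false

open scoped ENNReal BigOperators Topology
open MeasureTheory Filter CNP

theorem Pool.Agent.Results.MP_aad444_pr.MeanWidth.result (d : ℕ) (c : ℝ)
    (hc : Tendsto (fun n : ℕ => (cs d n : ℝ) ^ (1 / (n : ℝ))) atTop (𝓝 c)) (j : Fin (d + 1)) (hj : j ≠ 0) :
    (∑' γ : {l : Wlk d // Irr l}, ENNReal.ofReal c⁻¹ ^ γ.1.length) = 1 ∧
    (∑' γ : {l : Wlk d // Irr l}, ENNReal.ofReal c⁻¹ ^ γ.1.length * (wid j γ.1 : ℝ≥0∞)) = ⊤ :=
  ⟨(final_B d c hc j hj).1, (final_B d c hc j hj).2.1⟩
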