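import Pool.Agent.CNP.MNB

/-!
# The critical self-avoiding walk across a slab is not confined to the double cone (MP_aad444_pr)

The lattice is `ℤ^(d+1)` (`Fin (d + 1) → ℤ`), the coordinate `0` is the height.  `c` is the connective constant.  For `h ≥ 1` let
`P_h` be the critical measure on the self-avoiding walks from the bottom to the top of a slab of height `h`, with free
end point: the (strict) bridges `γ` of height `h` with weights proportional to `c ^ (-|γ|)`.  The geodesic is the vertical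
segment.  `Dia κ 0 j γ`: `γ` is self-avoiding and lies in the double cone (rhombus) with the tips at its end points, the
vertical axis and the slope `κ` in the transverse direction `j`.

The theorem: for every slope `0 < κ < 1` and every transverse direction `j` the lower limit of `P_h (Dia κ 0 j)` as `h → ∞`
is zero: for all `p > 0` and `H` there is a height `h ≥ H` for which the mass of the walks in the double cone is less than
`p` times the mass of all bridges of height `h`.  The first part is the corresponding (stronger) statement for the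
ensembles of all bridges of height less than `N`.
-/

set_option autoImplicit false

open scoped ENNReal BigOperators Topology
open MeasureTheory Filter CNP

theorem Pool.Agent.Results.MP_aad444_pr.SlabDiamond.result (d : ℕ) (c : ℝ)
    (hc : Tendsto (fun n : ℕ => (cs d n : ℝ) ^ (1 / (n : ℝ))) atTop (𝓝 c)) (j : Fin (d + 1)) (hj : j ≠ 0)
    (κ : ℝ) (h0 : 0 < κ) (h1 : κ < 1) (p : ℝ) (hp : 0 < p) (H : ℕ) :
    (∃ N : ℕ, H ≤ N ∧ ms (ENNReal.ofReal c⁻¹) {l : Wlk d | Dia κ 0 j l ∧ pos l 0 < N} <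
      ENNReal.ofReal p * ms (ENNReal.ofReal c⁻¹) {l : Wlk d | SB l ∧ pos l 0 < N}) ∧
    (∃ h : ℕ, H ≤ h ∧ ms (ENNReal.ofReal c⁻¹) {l : Wlk d | Dia κ 0 j l ∧ pos l 0 = h} <
      ENNReal.ofReal p * ms (ENNReal.ofReal c⁻¹) {l : Wlk d | SB l ∧ pos l 0 = h}) := by
  have hcm : c = mu d := tendsto_nhds_unique hc (cs_tendsto d)
  have hz : ENNReal.ofReal c⁻¹ = zc d := by
    rw [hcm]
    rfl
  rw [hz]
  refine ⟨?_, slab κ p h0 h1 j hj hp H⟩
  by_contra hcon
  push Not at hcon
  have hlt : ∀ (x : ℝ) (l : Wlk d), 0 ≤ x → ((pos l 0 : ℝ) < x ↔ pos l 0 < (⌈x⌉₊ : ℤ)) := by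
    intro x l hx
    rw [Int.natCast_ceil_eq_ceil hx, Int.lt_ceil]
  have hX : ∀ x : ℝ, 0 ≤ x → XL d (zc d) x = ms (zc d) {l : Wlk d | SB l ∧ pos l 0 < (⌈x⌉₊ : ℤ)} := by
    intro x hx
    unfold XL
    congr 1
    ext l
    simp only [Set.mem_setOf_eq, hlt x l hx]
  have hD : ∀ x : ℝ, 0 ≤ x → DL (zc d) κ j x = ms (zc d) {l : Wlk d | Dia κ 0 j l ∧ pos l 0 < (⌈x⌉₊ : ℤ)} := by
    intro x hx
    unfold DL
    congr 1
    ext l
    simp only [Set.mem_setOf_eq, hlt x l hx]
  have hfin : ∀ x : ℝ, 0 ≤ x → XL d (zc d) x ≠ ⊤ := by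
    intro x hx
    exact ne_of_lt (lt_of_le_of_lt (XL_le d x hx) ENNReal.ofReal_lt_top)
  refine core κ p (p * (H : ℝ)) h0 h1 j hj hp ?_
  intro x hx
  have hx0 : (0 : ℝ) ≤ x := by linarith
  have hDnn : 0 ≤ (DL (zc d) κ j x).toReal := ENNReal.toReal_nonneg
  by_cases hHN : H ≤ ⌈x⌉₊
  · have h2 := hcon ⌈x⌉₊ hHN
    rw [← hX x hx0, ← hD x hx0] at h2
    have h3 : (ENNReal.ofReal p * XL d (zc d) x).toReal ≤ (DL (zc d) κ j x).toReal := by
      refine ENNReal.toReal_mono ?_ h2
      exact ne_top_of_le_ne_top (hfin x hx0) (DL_le_XL κ h0 j _)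
    rw [ENNReal.toReal_mul, ENNReal.toReal_ofReal hp.le] at h3
    have h4 : 0 ≤ p * (H : ℝ) := by positivity
    linarith
  · have h2 : (XL d (zc d) x).toReal ≤ (H : ℝ) := by
      have h3 : XL d (zc d) x ≤ ENNReal.ofReal (H : ℝ) := by
        refine (XL_le d x hx0).trans (ENNReal.ofReal_le_ofReal ?_)
        have h4 : x ≤ (⌈x⌉₊ : ℝ) := Nat.le_ceil x
        have h5 : (⌈x⌉₊ : ℝ) ≤ (H : ℝ) := by exact_mod_cast (by omega : ⌈x⌉₊ ≤ H)
        linarith
      have h4 := ENNReal.toReal_mono ENNReal.ofReal_ne_top h3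
      rwa [ENNReal.toReal_ofReal (by positivity)] at h4
    have h5 : p * (XL d (zc d) x).toReal ≤ p * (H : ℝ) := mul_le_mul_of_nonneg_left h2 hp.le
    linarith
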